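import Pool.Agent.TMX.Stmts2

/-! Row MeanS of squad TMX. -/

namespace Pool.Agent.TMX.H81

open Finset
open Pool.Agent.Helper51_Max (I IsMax)

theorem meanS : MeanS := by
  intro N g M hM
  refine ⟨?_, ?_, ?_⟩
  · intro v hv
    have hI : I N v N = range (N + 1) := by
      ext i
      simp only [I, mem_range, Finset.mem_Icc]
      omega
    have h := hM.le v hv N
    rw [hI, Finset.card_range] at h
    push_cast at h
    linarith
  · intro p q hpq hq
    have hsub : ({p, q} : Finset ℕ) ⊆ range (N + 1) := by
      intro i hi
      simp only [Finset.mem_insert, Finset.mem_singleton] at hi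
      rw [mem_range]
      omega
    have h := Finset.sum_le_sum_of_subset_of_nonneg (f := g) hsub (fun i _ _ => hM.nonneg i)
    rw [Finset.sum_pair (by omega)] at h
    exact h
  · intro p q s hpq hqs hs
    have hsub : ({p, q, s} : Finset ℕ) ⊆ range (N + 1) := by
      intro i hi
      simp only [Finset.mem_insert, Finset.mem_singleton] at hi
      rw [mem_range]
      omega
    have h := Finset.sum_le_sum_of_subset_of_nonneg (f := g) hsub (fun i _ _ => hM.nonneg i)
    rw [Finset.sum_insert (by simp only [Finset.mem_insert, Finset.mem_singleton]; omega),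
      Finset.sum_pair (by omega)] at h
    linarith

end Pool.Agent.TMX.H81
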