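import Pool.Agent.TMX.Stmts4

/-! Row VBad of squad TMX. -/

set_option autoImplicit false

namespace Pool.Agent.TMX.H81

open Finset
open Pool.Agent.Helper51_Max (I IsMax)
open Pool.Agent.Helper37_EM (var)

theorem sit_refl (hG : GeoR) {N : ℕ} {g M : ℕ → ℝ} {y z y' r c Y Y' p p' : ℕ}
    (S : Sit N g M y z y' r c Y Y' p p') :
    Sit N (fun i => g (N - i)) (fun i => M (N - i)) (N - y') (N - z) (N - y) r (N - c)
      (N - Y') (N - Y) (N - p') (N - p) := by
  have h1 := S.geo.yz
  have h2 := S.geo.zz
  have h3 := S.geo.rz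
  have h4 := S.geo.rN
  have h5 := S.geo.hz
  have h6 := S.geo1.hz
  have h7 := S.geo1.yz
  have h8 := S.geo1.zz
  have h9 := S.cp
  have h10 := S.pN
  have h11 := S.pc
  have h12 := S.c1
  have h13 := S.c2
  have h14 := S.hY
  have h15 := S.hY'
  have e1 : N - (N - z) = z := by omega
  have e2 : N - (N - y) = y := by omega
  have e3 : N - (N - y') = y' := by omega
  have e4 : N - (N - c) = c := by omega
  refine ⟨hG N g M y z y' r S.geo, ?_, ?_, ?_, ?_, ?_, ?_, hG N g M Y z Y' r S.geo1, ?_, ?_, ?_,
    ?_, ?_, ?_, ?_⟩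
  · intro v hv hv'
    show M (N - v) ≤ M (N - (N - z))
    rw [e1]
    exact S.top (N - v) (by omega) (by omega)
  · omega
  · omega
  · show g (N - (N - c)) ≤ M (N - (N - y'))
    rw [e4, e3]
    exact S.cy'
  · show g (N - (N - c)) ≤ M (N - (N - y))
    rw [e4, e2]
    exact S.cy
  · intro i hi hi'
    show g (N - (N - c)) ≤ g (N - i)
    rw [e4]
    exact S.cmin (N - i) (by omega) (by omega)
  · omega
  · omega
  · omega
  · omega
  · omega
  · rcases S.Y2 with h | h
    · left; rw [h]
    · right; omega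
  · rcases S.Y1 with h | h
    · left; rw [h]
    · right; omega

theorem vBad : VBad := by
  intro hL hG hR hGapI hGainP hGain0 hLastK hXR3 hGain1b hGain3b N g M hM y z y' r c Y Y' p p' S
  have A := hL hGapI hGainP hGain0 hLastK hXR3 hGain1b hGain3b N g M hM y z y' r c Y Y' p p' S
  have B := hL hGapI hGainP hGain0 hLastK hXR3 hGain1b hGain3b N (fun i => g (N - i))
    (fun i => M (N - i)) ((hR N g M).1 hM) (N - y') (N - z) (N - y) r (N - c) (N - Y') (N - Y)
    (N - p') (N - p) (sit_refl hG S)
  have h2 := S.geo.zz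
  have h4 := S.geo.rN
  have h5 := S.geo.hz
  have h6 := S.geo1.hz
  have h7 := S.geo1.yz
  have h9 := S.cp
  have h10 := S.pN
  have h11 := S.pc
  refine ⟨A.1, A.2.1, ?_, A.2.2⟩
  intro u q hu hqp hq
  have e1 : N - (N - z) = z := by omega
  have e2 : N - (N - Y) = Y := by omega
  have e3 : N - (N - Y') = Y' := by omega
  have h := B.2.1 u (N - q) hu (by omega) (by omega) (by
    intro i hi
    exact hq (N - i) (by omega) (by omega))
  simp only [e1, e2, e3] at h
  have hs : ∑ i ∈ Icc (N - p) (N - q), (g (N - i) - u) = ∑ i ∈ Icc q p, (g i - u) := by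
    refine Finset.sum_nbij' (fun i => N - i) (fun i => N - i) ?_ ?_ ?_ ?_ ?_
    · intro i hi
      simp only [Finset.mem_Icc] at hi ⊢
      omega
    · intro i hi
      simp only [Finset.mem_Icc] at hi ⊢
      omega
    · intro i hi
      simp only [Finset.mem_Icc] at hi
      show N - (N - i) = i
      omega
    · intro i hi
      simp only [Finset.mem_Icc] at hi
      show N - (N - i) = i
      omega
    · intro i _
      rfl
  rw [hs] at h
  have e : M Y' + M Y - M z - u = M Y + M Y' - M z - u := by ring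
  rw [e] at h
  exact h

end Pool.Agent.TMX.H81
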